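import Mathlib

/-!
Perimeter of convex hulls by Cauchy's formula: definitions and two-sided bounds.
-/

open MeasureTheory ProbabilityTheory Filter Topology

namespace Pool.Agent.R784.PV

/-- the Euclidean plane. -/
abbrev E2 := EuclideanSpace ℝ (Fin 2)

/-- the unit vector `e_t = (cos t, sin t)`. -/
noncomputable def dir (t : ℝ) : E2 := !₂[Real.cos t, Real.sin t]

/-- the support function `h_K(t) = sup_{x ∈ K} ⟨x, e_t⟩`. -/
noncomputable def supp (K : Set E2) (t : ℝ) : ℝ := sSup ((fun x : E2 => inner ℝ x (dir t)) '' K)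

/-- the perimeter length of a compact convex set in the plane (Cauchy's formula:
the integral of the support function over all directions; a segment gets twice its length). -/
noncomputable def perimeter (K : Set E2) : ℝ := ∫ t in (0 : ℝ)..(2 * Real.pi), supp K t

/-- the walk `S_k = Z_1 + ... + Z_k` (the steps are indexed by `0, 1, ...`). -/
noncomputable def S {Ω : Type*} (Z : ℕ → Ω → E2) (k : ℕ) (ω : Ω) : E2 :=
  ∑ i ∈ Finset.range k, Z i ω

/-- `L_n`: the perimeter length of the convex hull of `{S_0, ..., S_n}`. -/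
noncomputable def L {Ω : Type*} (Z : ℕ → Ω → E2) (n : ℕ) (ω : Ω) : ℝ :=
  perimeter (convexHull ℝ ((fun k => S Z k ω) '' Set.Iic n))

lemma inner_dir (x : E2) (t : ℝ) :
    inner ℝ x (dir t) = x 0 * Real.cos t + x 1 * Real.sin t := by
  simp [dir, PiLp.inner_apply, Fin.sum_univ_two]
  ring

lemma norm_dir (t : ℝ) : ‖dir t‖ = 1 := by
  rw [EuclideanSpace.norm_eq]
  simp [dir, Fin.sum_univ_two]

/-- the maximum of finitely many inner products. -/
noncomputable def mx (s : ℕ → E2) (n : ℕ) (t : ℝ) : ℝ :=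
  (Finset.range (n + 1)).sup' (Finset.nonempty_range_add_one) (fun k => inner ℝ (s k) (dir t))

lemma supp_hull (s : ℕ → E2) (n : ℕ) (t : ℝ) :
    supp (convexHull ℝ (s '' Set.Iic n)) t = mx s n t := by
  unfold supp
  apply IsGreatest.csSup_eq
  constructor
  · obtain ⟨k, hk, hk2⟩ := Finset.exists_mem_eq_sup' (Finset.nonempty_range_add_one (n := n))
      (fun k => inner ℝ (s k) (dir t))
    refine ⟨s k, subset_convexHull ℝ _ ⟨k, ?_, rfl⟩, ?_⟩
    · rw [Finset.mem_range] at hk
      exact Set.mem_Iic.2 (by omega)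
    · exact hk2.symm
  · rintro _ ⟨x, hx, rfl⟩
    have hconv : Convex ℝ {x : E2 | inner ℝ x (dir t) ≤ mx s n t} := by
      apply convex_halfSpace_le
      exact ⟨fun x y => inner_add_left x y _, fun c x => by simp [inner_smul_left]⟩
    have hsub : s '' Set.Iic n ⊆ {x : E2 | inner ℝ x (dir t) ≤ mx s n t} := by
      rintro _ ⟨k, hk, rfl⟩
      exact Finset.le_sup' (fun k => inner ℝ (s k) (dir t))
        (Finset.mem_range.2 (Nat.lt_succ_of_le (Set.mem_Iic.1 hk)))
    exact convexHull_min hsub hconv hx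

lemma le_mx (s : ℕ → E2) {n k : ℕ} (hk : k ≤ n) (t : ℝ) : inner ℝ (s k) (dir t) ≤ mx s n t :=
  Finset.le_sup' (fun k => inner ℝ (s k) (dir t)) (Finset.mem_range.2 (Nat.lt_succ_of_le hk))

lemma mx_le (s : ℕ → E2) {n : ℕ} {t B : ℝ} (h : ∀ k ≤ n, inner ℝ (s k) (dir t) ≤ B) :
    mx s n t ≤ B :=
  Finset.sup'_le _ _ fun k hk => h k (Nat.lt_succ_iff.1 (Finset.mem_range.1 hk))

lemma dir_cont : Continuous dir := by
  have : dir = fun t => (WithLp.toLp 2 ![Real.cos t, Real.sin t] : E2) := rfl
  rw [this]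
  refine (PiLp.continuous_toLp 2 _).comp ?_
  refine continuous_pi fun i => ?_
  fin_cases i
  · exact Real.continuous_cos
  · exact Real.continuous_sin

lemma mx_cont (s : ℕ → E2) (n : ℕ) : Continuous (mx s n) := by
  unfold mx
  refine Continuous.finset_sup'_apply _ fun k _ => ?_
  exact continuous_const.inner dir_cont

lemma perim_eq (s : ℕ → E2) (n : ℕ) :
    perimeter (convexHull ℝ (s '' Set.Iic n)) = ∫ t in (0 : ℝ)..(2 * Real.pi), mx s n t := by
  unfold perimeter
  simp only [supp_hull]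

lemma trig_integral (A B c u v : ℝ) :
    ∫ t in (0 : ℝ)..(2 * Real.pi), (A * Real.cos t + B * Real.sin t
      + c * (u * Real.cos t + v * Real.sin t) ^ 2) = c * Real.pi * (u ^ 2 + v ^ 2) := by
  have h : ∀ t ∈ Set.uIcc (0 : ℝ) (2 * Real.pi), HasDerivAt
      (fun t => A * Real.sin t - B * Real.cos t + c * ((u ^ 2 + v ^ 2) / 2 * t
        + (u ^ 2 - v ^ 2) / 2 * (Real.sin t * Real.cos t) + u * v * (Real.sin t * Real.sin t)))
      (A * Real.cos t + B * Real.sin t + c * (u * Real.cos t + v * Real.sin t) ^ 2) t := by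
    intro t _
    have hs := Real.hasDerivAt_sin t
    have hc := Real.hasDerivAt_cos t
    have h1 := ((hs.const_mul A).sub (hc.const_mul B)).add
      (((((hasDerivAt_id t).const_mul ((u ^ 2 + v ^ 2) / 2)).add
        ((hs.mul hc).const_mul ((u ^ 2 - v ^ 2) / 2))).add
        ((hs.mul hs).const_mul (u * v))).const_mul c)
    have e : Real.sin t ^ 2 = 1 - Real.cos t ^ 2 := by linarith [Real.sin_sq_add_cos_sq t]
    refine HasDerivAt.congr_deriv (f := fun t => A * Real.sin t - B * Real.cos t
      + c * ((u ^ 2 + v ^ 2) / 2 * t + (u ^ 2 - v ^ 2) / 2 * (Real.sin t * Real.cos t)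
      + u * v * (Real.sin t * Real.sin t))) h1 ?_
    ring_nf
    rw [e]
    ring
  rw [intervalIntegral.integral_eq_sub_of_hasDerivAt h]
  · simp
    ring
  · apply Continuous.intervalIntegrable
    fun_prop

section walk

variable {Ω : Type*} (Z : ℕ → Ω → E2)

lemma L_eq (n : ℕ) (ω : Ω) :
    L Z n ω = ∫ t in (0 : ℝ)..(2 * Real.pi), mx (fun k => S Z k ω) n t := perim_eq _ _

lemma S_norm_le {n k : ℕ} (hk : k ≤ n) (ω : Ω) :
    ‖S Z k ω‖ ≤ ∑ i ∈ Finset.range n, ‖Z i ω‖ :=
  (norm_sum_le _ _).trans (Finset.sum_le_sum_of_subset_of_nonneg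
    (Finset.range_subset_range.2 hk) fun _ _ _ => norm_nonneg _)

lemma L_upper (n : ℕ) (ω : Ω) :
    L Z n ω ≤ 2 * Real.pi * ∑ i ∈ Finset.range n, ‖Z i ω‖ := by
  rw [L_eq]
  have h : ∫ t in (0 : ℝ)..(2 * Real.pi), mx (fun k => S Z k ω) n t
      ≤ ∫ _ in (0 : ℝ)..(2 * Real.pi), ∑ i ∈ Finset.range n, ‖Z i ω‖ := by
    apply intervalIntegral.integral_mono_on (by positivity)
      ((mx_cont _ _).intervalIntegrable _ _) (continuous_const.intervalIntegrable _ _)
    intro t _
    refine mx_le _ fun k hk => ?_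
    refine (real_inner_le_norm _ _).trans ?_
    rw [norm_dir, mul_one]
    exact S_norm_le Z hk ω
  refine h.trans ?_
  simp

lemma L_lower {n i : ℕ} (hi : i < n) (ω : Ω) : Real.pi / 2 * ‖Z i ω‖ ≤ L Z n ω := by
  rw [L_eq]
  set z := Z i ω with hz
  set a := S Z i ω with ha
  have hS : S Z (i + 1) ω = a + z := by simp [S, Finset.sum_range_succ, ha, hz]
  have hnorm : z 0 ^ 2 + z 1 ^ 2 = ‖z‖ ^ 2 := by
    rw [EuclideanSpace.norm_sq_eq]
    simp [Fin.sum_univ_two]
  have key : ∀ t, (a 0 + z 0 / 2) * Real.cos t + (a 1 + z 1 / 2) * Real.sin t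
      + (1 / (2 * ‖z‖)) * (z 0 * Real.cos t + z 1 * Real.sin t) ^ 2
      ≤ mx (fun k => S Z k ω) n t := by
    intro t
    have h1 : inner ℝ a (dir t) ≤ mx (fun k => S Z k ω) n t := le_mx (fun k => S Z k ω) hi.le t
    have h2 : inner ℝ (a + z) (dir t) ≤ mx (fun k => S Z k ω) n t := by
      rw [← hS]
      exact le_mx (fun k => S Z k ω) (show i + 1 ≤ n from hi) t
    rw [inner_add_left] at h2
    rw [inner_dir] at h1 h2
    have h3 : |inner ℝ z (dir t)| ≤ ‖z‖ := by
      have := abs_real_inner_le_norm z (dir t)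
      rwa [norm_dir, mul_one] at this
    rw [inner_dir] at h2 h3
    set y := z 0 * Real.cos t + z 1 * Real.sin t with hy
    have h4 : (1 / (2 * ‖z‖)) * y ^ 2 ≤ |y| / 2 := by
      rcases (norm_nonneg z).eq_or_lt with h0 | h0
      · rw [← h0]; simp; positivity
      · rw [← sq_abs]
        rw [div_mul_eq_mul_div, one_mul, div_le_div_iff₀ (by positivity) (by positivity)]
        nlinarith [abs_nonneg y]
    have h5 : |y| / 2 + y / 2 ≤ max 0 y := by
      rcases le_total 0 y with h | h
      · rw [abs_of_nonneg h, max_eq_right h]; linarith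
      · rw [abs_of_nonpos h, max_eq_left h]; linarith
    have h6 : a 0 * Real.cos t + a 1 * Real.sin t + max 0 y ≤ mx (fun k => S Z k ω) n t := by
      rcases le_total 0 y with h | h
      · rw [max_eq_right h]; linarith
      · rw [max_eq_left h]; linarith
    have h7 : (a 0 + z 0 / 2) * Real.cos t + (a 1 + z 1 / 2) * Real.sin t
        = a 0 * Real.cos t + a 1 * Real.sin t + y / 2 := by rw [hy]; ring
    rw [h7]
    linarith
  have hint : ∫ t in (0 : ℝ)..(2 * Real.pi),
      ((a 0 + z 0 / 2) * Real.cos t + (a 1 + z 1 / 2) * Real.sin t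
      + (1 / (2 * ‖z‖)) * (z 0 * Real.cos t + z 1 * Real.sin t) ^ 2)
      ≤ ∫ t in (0 : ℝ)..(2 * Real.pi), mx (fun k => S Z k ω) n t := by
    apply intervalIntegral.integral_mono_on (by positivity)
    · apply Continuous.intervalIntegrable
      fun_prop
    · exact (mx_cont _ _).intervalIntegrable _ _
    · intro t _
      exact key t
  rw [trig_integral, hnorm] at hint
  refine le_trans (le_of_eq ?_) hint
  rcases (norm_nonneg z).eq_or_lt with h0 | h0
  · rw [← h0]; simp
  · field_simp

lemma L_nonneg (n : ℕ) (ω : Ω) : 0 ≤ L Z n ω := by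
  rw [L_eq]
  apply intervalIntegral.integral_nonneg (by positivity)
  intro t _
  have := le_mx (fun k => S Z k ω) (Nat.zero_le n) t
  simpa [S] using this

lemma L_meas [MeasurableSpace Ω] (hm : ∀ i, Measurable (Z i)) (n : ℕ) :
    Measurable (L Z n) := by
  have h1 : (L Z n) = fun ω => ∫ t, mx (fun k => S Z k ω) n t
      ∂(volume.restrict (Set.Ioc 0 (2 * Real.pi))) := by
    funext ω
    rw [L_eq, intervalIntegral.integral_of_le (by positivity)]
  rw [h1]
  have hSm : ∀ k, Measurable (S Z k) := fun k => by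
    have : S Z k = fun ω => ∑ i ∈ Finset.range k, Z i ω := by funext ω; simp [S]
    rw [this]
    exact Finset.measurable_sum _ fun i _ => hm i
  have h2 : Measurable (Function.uncurry fun (ω : Ω) (t : ℝ) => mx (fun k => S Z k ω) n t) := by
    have h3 : (Function.uncurry fun (ω : Ω) (t : ℝ) => mx (fun k => S Z k ω) n t)
        = (Finset.range (n + 1)).sup' (Finset.nonempty_range_add_one)
          (fun k => fun p : Ω × ℝ => inner ℝ (S Z k p.1) (dir p.2)) := by
      funext p
      simp [Function.uncurry, mx, Finset.sup'_apply]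
    rw [h3]
    refine Finset.measurable_sup' _ fun k _ => ?_
    exact ((hSm k).comp measurable_fst).inner (dir_cont.measurable.comp measurable_snd)
  exact (h2.stronglyMeasurable.integral_prod_right').measurable

end walk

end Pool.Agent.R784.PV
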